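import Pool.Agent.MP_3e18ff_co.H58.Main
import Pool.Agent.MP_3e18ff_co.H58.Models

/-- For `k` even, `k < 2t` and `t < k < n`, a family is a Steiner system `S(t, k, n)` with the
symmetric difference property if and only if it is isomorphic to the system of planes of
`AG(d, 2)` with `d ≥ 3`, or to the Witt system `S(5, 6, 12)`, or to the Witt system
`S(5, 8, 24)`. -/
theorem Pool.Agent.Results.MP_3e18ff_co.Classification.result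
    (X : Type) [Fintype X] [DecidableEq X] (t k : ℕ) (𝓑 : Finset (Finset X))
    (hk : Even k) (hkt : k < 2 * t) (htk : t < k) (hkn : k < Fintype.card X) :
    ((∀ B ∈ 𝓑, B.card = k) ∧ (∀ T : Finset X, T.card = t → ∃! B, B ∈ 𝓑 ∧ T ⊆ B) ∧
      ∀ B ∈ 𝓑, ∀ B' ∈ 𝓑, (B ∩ B').card = k / 2 → symmDiff B B' ∈ 𝓑) ↔
      ((t = 3 ∧ k = 4 ∧ ∃ d : ℕ, 3 ≤ d ∧ ∃ φ : X ≃ (Fin d → ZMod 2),
          ∀ B : Finset X, B ∈ 𝓑 ↔ B.card = 4 ∧ ∑ x ∈ B, φ x = 0) ∨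
        (t = 5 ∧ k = 6 ∧ ∃ φ : X ≃ Option (ZMod 11),
          ∀ B : Finset X, B ∈ 𝓑 ↔ ∃ a b : ZMod 11, a ≠ 0 ∧
            ∃ S ∈ ({{1, 3, 4, 5, 9}, {0, 1, 2, 3, 5}} : Finset (Finset (ZMod 11))),
              B.image φ = insert none (S.image fun s => some (a ^ 2 * s + b)) ∨
              Bᶜ.image φ = insert none (S.image fun s => some (a ^ 2 * s + b))) ∨
        (t = 5 ∧ k = 8 ∧ ∃ φ : X ≃ Fin 24,
          ∀ B : Finset X, B ∈ 𝓑 ↔ B.card = 8 ∧ ∀ j < 12,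
            Even (B.filter fun x => (φ x : ℕ) ∈
              ({j, j + 1, j + 5, j + 6, j + 7, j + 9, j + 11, 23} : Finset ℕ)).card)) := by
  rw [← and_assoc, ← Pool.Agent.MP_3e18ff_co.H58.st_iff,
    ← Pool.Agent.MP_3e18ff_co.H58.hexad_model, ← Pool.Agent.MP_3e18ff_co.H58.octad_model]
  constructor
  · rintro ⟨h, hs⟩
    by_cases hne : k + 4 ≤ 2 * t
    · obtain ⟨rfl, rfl, h2⟩ := Pool.Agent.MP_3e18ff_co.H58.main_low h hk hs htk hne hkn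
      exact Or.inr (Or.inl ⟨rfl, rfl, h, h2⟩)
    obtain ⟨s, hs'⟩ := hk
    obtain ⟨e, rfl⟩ : ∃ e, t = e + 2 := ⟨t - 2, by omega⟩
    obtain rfl : k = 2 * e + 2 := by omega
    rw [show (2 * e + 2) / 2 = e + 1 by omega] at hs
    by_cases he : e = 1
    · subst he
      exact Or.inl ⟨rfl, rfl, Pool.Agent.MP_3e18ff_co.H58.main_ag h hs hkn⟩
    · obtain ⟨rfl, h2⟩ := Pool.Agent.MP_3e18ff_co.H58.main_high h hs (by omega) hkn
      exact Or.inr (Or.inr ⟨rfl, rfl, h, h2⟩)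
  · rintro (⟨rfl, rfl, d, -, φ, hφ⟩ | ⟨rfl, rfl, h, hn⟩ | ⟨rfl, rfl, h, hn⟩)
    · exact ⟨Pool.Agent.MP_3e18ff_co.H58.ag_st φ hφ, Pool.Agent.MP_3e18ff_co.H58.ag_sdp φ hφ⟩
    · exact ⟨h, Pool.Agent.MP_3e18ff_co.H58.hexad_sdp h hn⟩
    · exact ⟨h, Pool.Agent.MP_3e18ff_co.H58.octad_sdp h hn⟩
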